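import Mathlib
import Pool.Agent.H16.Sal

set_option autoImplicit false

namespace Pool.Agent.Results.MP_24e294_lc.Yes

open Pool.Agent.H16.Sal

theorem result : ∀ N : ℕ, ∃ n : ℕ, N ≤ n ∧ ∃ w w' : List L,
    Irred w w' ∧ Pool.Agent.H16.Sal.dist w w' = n ∧ ¬ Expr n w w' :=
  main

end Pool.Agent.Results.MP_24e294_lc.Yes
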